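import Pool.Agent.H98.ABCR.Stmts2
import Pool.Agent.H20.ABCR.SHI

/-! # Many primes `l` such that `l - 1` has a prime factor in `(y ^ a, y ^ b]`

The general form of module SHI, with the same method. -/

set_option autoImplicit false

namespace Pool.Agent.H47.ABCR
open Finset MTA Filter Pool.Agent.H20.ABCR

/-- the primes `s` in `(x ^ a, x ^ b]` -/
noncomputable def PSg (a b x : ℝ) : Finset ℕ :=
  (Icc 1 ⌊x ^ b⌋₊).filter fun s => s.Prime ∧ x ^ a < s

theorem mem_PSg {a b x : ℝ} (hx : 0 ≤ x) {s : ℕ} (h : s ∈ PSg a b x) :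
    s.Prime ∧ x ^ a < s ∧ (s : ℝ) ≤ x ^ b := by
  rw [PSg, mem_filter, mem_Icc] at h
  refine ⟨h.2.1, h.2.2, ?_⟩
  exact (Nat.le_floor_iff (by positivity)).1 h.1.2

theorem shg_emax {a b : ℝ} (ha : 0 < a) (hb : b ≤ 1 / 5) (hL : S_LARGE) (hC : S_CHAR) (hT : S_THPSI) : ∃ (C x0 : ℝ) (k : ℕ), 0 < C ∧
    ∀ x : ℝ, x0 ≤ x → ∑ s ∈ PSg a b x, Emax 1 x s ≤
      C * (Real.log x) ^ k * (x ^ (1 - a) + x ^ (19 / 20 : ℝ)) + C * x ^ (4 / 5 : ℝ) := by
  obtain ⟨C4, k, hC4, hL⟩ := hL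
  obtain ⟨xC, hC⟩ := hC 1 le_rfl
  obtain ⟨C1, xT, hC1, hT⟩ := hT 1 le_rfl
  refine ⟨max C4 C1, max (max xC xT) 2, k, lt_max_of_lt_left hC4, fun x hx => ?_⟩
  simp only [max_le_iff] at hx
  obtain ⟨⟨hxC, hxT⟩, hx2⟩ := hx
  have hx1 : 1 ≤ x := by linarith
  have hx0 : 0 < x := by linarith
  have hexp : x ^ b ≤ x ^ (1 / 5 : ℝ) :=
    Real.rpow_le_rpow_of_exponent_le hx1 hb
  have hlog : 0 ≤ Real.log x := Real.log_nonneg hx1
  have s1 : ∀ s ∈ PSg a b x, Emax 1 x s ≤ 1 / (s.totient : ℝ) * prs s (fun χ => ‖psiR x χ‖) +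
      C1 * x ^ (3 / 5 : ℝ) := by
    intro s hs
    obtain ⟨h1, h2, h3⟩ := mem_PSg hx0.le hs
    have : NeZero s := ⟨h1.ne_zero⟩
    have ht : 0 < (s.totient : ℝ) := by exact_mod_cast Nat.totient_pos.2 h1.pos
    refine (hC x s hxC h1.one_le (h3.trans hexp)).trans ?_
    have e1 := shi_nps s h1 (fun χ => ‖thetaR 1 x χ‖) (fun χ => ‖psiR x χ‖) (C1 * x ^ (3 / 5 : ℝ))
      (by positivity) (fun χ => norm_nonneg _) (fun χ => by
        have f1 := hT x s χ hxT
        rw [Nat.cast_one, one_mul] at f1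
        have f2 : ‖thetaR 1 x χ‖ = ‖psiR x χ + (thetaR 1 x χ - psiR x χ)‖ := by congr 1; ring
        rw [f2]
        exact (norm_add_le _ _).trans (by linarith))
    calc 1 / (s.totient : ℝ) * nps s (fun χ => ‖thetaR 1 x χ‖)
        ≤ 1 / (s.totient : ℝ) * (prs s (fun χ => ‖psiR x χ‖) +
          s.totient * (C1 * x ^ (3 / 5 : ℝ))) :=
          mul_le_mul_of_nonneg_left e1 (by positivity)
      _ = _ := by field_simp
  have s2 : ∑ s ∈ PSg a b x, 1 / (s.totient : ℝ) * prs s (fun χ => ‖psiR x χ‖) ≤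
      C4 * (Real.log x) ^ k * (x / x ^ a + x ^ (19 / 20 : ℝ)) := by
    refine (Finset.sum_le_sum_of_subset_of_nonneg ?_ ?_).trans
      (hL x (x ^ a) hx2 (Real.one_le_rpow hx1 ha.le))
    · intro s hs
      rw [PSg, mem_filter, mem_Icc] at hs
      rw [mem_filter, mem_Icc]
      exact ⟨⟨hs.1.1, hs.1.2.trans (Nat.floor_le_floor hexp)⟩, hs.2.2⟩
    · intro r _ _
      refine mul_nonneg (by positivity) ?_
      unfold prs
      refine Finset.sum_nonneg fun χ _ => ?_
      split_ifs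
      · exact norm_nonneg _
      · exact le_rfl
  have s3 : x / x ^ a = x ^ (1 - a) := by
    rw [div_eq_iff (by positivity), ← Real.rpow_add hx0, sub_add_cancel, Real.rpow_one]
  rw [s3] at s2
  refine (Finset.sum_le_sum s1).trans ?_
  rw [Finset.sum_add_distrib, Finset.sum_const, nsmul_eq_mul]
  have s4 : ((PSg a b x).card : ℝ) ≤ x ^ (1 / 5 : ℝ) := by
    have h1 : (PSg a b x).card ≤ ⌊x ^ b⌋₊ := by
      refine (Finset.card_filter_le _ _).trans ?_
      simp
    calc ((PSg a b x).card : ℝ) ≤ (⌊x ^ b⌋₊ : ℝ) := by exact_mod_cast h1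
      _ ≤ x ^ b := Nat.floor_le (by positivity)
      _ ≤ _ := hexp
  have s5 : ((PSg a b x).card : ℝ) * (C1 * x ^ (3 / 5 : ℝ)) ≤ max C4 C1 * x ^ (4 / 5 : ℝ) := by
    calc ((PSg a b x).card : ℝ) * (C1 * x ^ (3 / 5 : ℝ)) ≤ x ^ (1 / 5 : ℝ) * (max C4 C1 * x ^ (3 / 5 : ℝ)) := by
          gcongr
          exact le_max_right _ _
      _ = max C4 C1 * (x ^ (1 / 5 : ℝ) * x ^ (3 / 5 : ℝ)) := by ring
      _ = _ := by
          rw [← Real.rpow_add hx0]; norm_num
  have s6 : C4 * (Real.log x) ^ k * (x ^ (1 - a) + x ^ (19 / 20 : ℝ)) ≤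
      max C4 C1 * (Real.log x) ^ k * (x ^ (1 - a) + x ^ (19 / 20 : ℝ)) := by
    gcongr
    exact le_max_left _ _
  linarith

theorem shg_PS {a b : ℝ} (ha : 0 < a) (hab : a < b) (hb : b ≤ 1 / 5) (hE : S_CHE) : ∃ (c x0 : ℝ), 0 < c ∧ ∀ x : ℝ, x0 ≤ x →
    c / Real.log x ≤ ∑ s ∈ PSg a b x, 1 / (s.totient : ℝ) := by
  obtain ⟨c1, C1, hc1, hC1, hE⟩ := hE
  obtain ⟨x1, hE⟩ := hE 1 le_rfl
  have e1 := shi_rpow_ev b (ha.trans hab) (max (8 * x1 + 1) 2)
  have e2 := shi_rpow_ev (b - a) (sub_pos.2 hab) 128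
  obtain ⟨x0, hx0⟩ := eventually_atTop.1 ((e1.and e2).and (eventually_ge_atTop (3 : ℝ)))
  refine ⟨c1 / 16, x0, by positivity, fun x hx => ?_⟩
  obtain ⟨⟨h1, h2⟩, h3⟩ := hx0 x hx
  rw [max_le_iff] at h1
  set z := x ^ b with hz
  have hx1 : 1 ≤ x := by linarith
  have hxp : 0 < x := by linarith
  have hlog : 0 < Real.log x := Real.log_pos (by linarith)
  have hzx : z ≤ x := by
    conv_rhs => rw [← Real.rpow_one x]
    exact Real.rpow_le_rpow_of_exponent_le hx1 (by linarith)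
  have hz9 : 128 * x ^ a ≤ z := by
    have h4 : z = x ^ (b - a) * x ^ a := by
      rw [← Real.rpow_add hxp, hz, sub_add_cancel]
    rw [h4]
    exact mul_le_mul_of_nonneg_right h2 (by positivity)
  have hz9' : 1 ≤ x ^ a := Real.one_le_rpow hx1 ha.le
  have h5 := (hE ((z - 1) / 8) (by linarith)).1
  have h6 : TH 1 ((z - 1) / 8) ≤ (PSg a b x).card * Real.log x := by
    have hh : ((PSg a b x).card : ℝ) * Real.log x = ∑ _s ∈ PSg a b x, Real.log x := by
      rw [Finset.sum_const, nsmul_eq_mul]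
    rw [hh]
    unfold TH
    refine le_trans (le_of_eq (Finset.sum_filter_ne_zero _).symm) ?_
    refine le_trans (Finset.sum_le_sum (g := fun _ => Real.log x) ?_)
      (Finset.sum_le_sum_of_subset_of_nonneg ?_ fun _ _ _ => hlog.le)
    · intro p hp
      rw [mem_filter, mem_filter, mem_Icc] at hp
      have hp1 : (p : ℝ) ≤ z := by
        have h7 : (p : ℝ) ≤ (⌊8 * ((1 : ℕ) : ℝ) * ((z - 1) / 8)⌋₊ : ℝ) + 1 := by
          exact_mod_cast hp.1.1.2
        have h8 := Nat.floor_le (show 0 ≤ 8 * ((1 : ℕ) : ℝ) * ((z - 1) / 8) by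
          push_cast; linarith)
        rw [Nat.cast_one] at h7 h8
        linarith
      have hp2 : (1 : ℝ) ≤ p := by exact_mod_cast (by omega : 1 ≤ p)
      calc Real.log p * rho _ ≤ Real.log p * 1 :=
            mul_le_mul_of_nonneg_left (rho_le_one _) (Real.log_nonneg hp2)
        _ ≤ Real.log x := by
            rw [mul_one]
            exact Real.log_le_log (by linarith) (hp1.trans hzx)
    · intro p hp
      rw [mem_filter, mem_filter, mem_Icc] at hp
      have hp1 : (p : ℝ) ≤ z := by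
        have h7 : (p : ℝ) ≤ (⌊8 * ((1 : ℕ) : ℝ) * ((z - 1) / 8)⌋₊ : ℝ) + 1 := by
          exact_mod_cast hp.1.1.2
        have h8 := Nat.floor_le (show 0 ≤ 8 * ((1 : ℕ) : ℝ) * ((z - 1) / 8) by
          push_cast; linarith)
        rw [Nat.cast_one] at h7 h8
        linarith
      have hp2 : (2 : ℝ) ≤ p := by exact_mod_cast hp.1.1.1
      have h9 := (shi_supp (x := (z - 1) / 8) (t := (p : ℝ) - 1) (by linarith) (by linarith)
        (right_ne_zero_of_mul hp.2)).1
      rw [PSg, mem_filter, mem_Icc]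
      refine ⟨⟨by omega, Nat.le_floor hp1⟩, hp.1.2, ?_⟩
      linarith
  have h7 : ∀ s ∈ PSg a b x, 1 / z ≤ 1 / (s.totient : ℝ) := by
    intro s hs
    obtain ⟨a1, a2, a3⟩ := mem_PSg hxp.le hs
    have ht : 0 < (s.totient : ℝ) := by exact_mod_cast Nat.totient_pos.2 a1.pos
    refine one_div_le_one_div_of_le ht ?_
    have : (s.totient : ℝ) ≤ s := by exact_mod_cast Nat.totient_le s
    linarith
  have h8 := Finset.sum_le_sum h7
  rw [Finset.sum_const, nsmul_eq_mul] at h8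
  refine le_trans ?_ h8
  rw [div_le_iff₀ hlog]
  have h9 : c1 * ((z - 1) / 8) ≤ (PSg a b x).card * Real.log x := by
    have := h5.trans h6
    rwa [Nat.cast_one, one_mul] at this
  have hz0 : 0 < z := by linarith
  have hz16 : z / 16 ≤ (z - 1) / 8 := by linarith
  calc c1 / 16 = (c1 * (z / 16)) * (1 / z) := by field_simp
    _ ≤ (c1 * ((z - 1) / 8)) * (1 / z) := by gcongr
    _ ≤ ((PSg a b x).card * Real.log x) * (1 / z) := by gcongr
    _ = _ := by ring

open Classical in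
/-- primes `l` near `x` such that `l - 1` has a prime factor in `(x ^ a, x ^ b]` -/
noncomputable def GoodLg (a b x : ℝ) : Finset ℕ :=
  (Icc 2 (⌊8 * x⌋₊ + 1)).filter fun l => l.Prime ∧ x / 8 ≤ (l : ℝ) - 1 ∧ (l : ℝ) ≤ 8 * x ∧
    ∃ s : ℕ, s.Prime ∧ x ^ a < s ∧ (s : ℝ) ≤ x ^ b ∧ s ∣ l - 1

theorem shg_tha {a b x : ℝ} (hx : 2 ≤ x) (s : ℕ) (hs : s ∈ PSg a b x) :
    THa 1 x s 1 ≤ ((GoodLg a b x).filter fun l => s ∣ l - 1).card * Real.log (8 * x) := by
  classical
  obtain ⟨a1, a2, a3⟩ := mem_PSg (by linarith) hs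
  have hlog : 0 ≤ Real.log (8 * x) := Real.log_nonneg (by linarith)
  have hh : ((((GoodLg a b x).filter fun l => s ∣ l - 1).card : ℕ) : ℝ) * Real.log (8 * x) =
      ∑ _l ∈ (GoodLg a b x).filter (fun l => s ∣ l - 1), Real.log (8 * x) := by
    rw [Finset.sum_const, nsmul_eq_mul]
  rw [hh]
  unfold THa
  have key : ∀ p : ℕ, 2 ≤ p → p ≤ ⌊8 * ((1 : ℕ) : ℝ) * x⌋₊ + 1 →
      rho (Real.log (((p : ℝ) - 1) / (((1 : ℕ) : ℝ) * x))) ≠ 0 →
      x / 8 ≤ (p : ℝ) - 1 ∧ (p : ℝ) ≤ 8 * x := by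
    intro p hp _ hr
    have hp2 : (2 : ℝ) ≤ p := by exact_mod_cast hp
    have h1 := shi_supp (x := x) (t := (p : ℝ) - 1) (by linarith) (by linarith) hr
    exact ⟨h1.1, by linarith [h1.2]⟩
  refine le_trans (le_of_eq (Finset.sum_filter_ne_zero _).symm) ?_
  refine le_trans (Finset.sum_le_sum (g := fun _ => Real.log (8 * x)) ?_)
    (Finset.sum_le_sum_of_subset_of_nonneg ?_ fun _ _ _ => hlog)
  · intro p hp
    rw [mem_filter, mem_filter, mem_Icc] at hp
    have h1 := key p hp.1.1.1 hp.1.1.2 (right_ne_zero_of_mul hp.2)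
    have hp2 : (2 : ℝ) ≤ p := by exact_mod_cast hp.1.1.1
    calc Real.log p * rho _ ≤ Real.log p * 1 :=
          mul_le_mul_of_nonneg_left (rho_le_one _) (Real.log_nonneg (by linarith))
      _ ≤ Real.log (8 * x) := by
          rw [mul_one]
          exact Real.log_le_log (by linarith) h1.2
  · intro p hp
    rw [mem_filter, mem_filter, mem_Icc] at hp
    have h1 := key p hp.1.1.1 hp.1.1.2 (right_ne_zero_of_mul hp.2)
    have hd : s ∣ p - 1 := (Nat.modEq_iff_dvd' (by omega)).1 hp.1.2.2.symm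
    rw [mem_filter, GoodLg, mem_filter, mem_Icc]
    refine ⟨⟨⟨hp.1.1.1, ?_⟩, hp.1.2.1, h1.1, h1.2, s, a1, a2, a3, hd⟩, hd⟩
    have := hp.1.1.2
    rwa [Nat.cast_one, mul_one] at this

theorem shg_count {a b : ℝ} (ha0 : 0 < a) (hab : a < b) (hb1 : b ≤ 1 / 5) (hL : S_LARGE) (hC : S_CHAR) (hT : S_THPSI) (hE : S_CHE) :
    ∃ (c x0 : ℝ), 0 < c ∧ ∀ x : ℝ, x0 ≤ x → c * x / (Real.log x) ^ 3 ≤ (GoodLg a b x).card := by
  classical
  obtain ⟨C, xa, k, hC0, ha⟩ := shg_emax ha0 hb1 hL hC hT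
  obtain ⟨c2, xb, hc2, hb⟩ := shg_PS ha0 hab hb1 hE
  obtain ⟨c1, C1, hc1, hC1, hE⟩ := hE
  obtain ⟨xc, hE⟩ := hE 1 le_rfl
  set th : ℝ := min a (1 / 20) with hth
  have hth0 : 0 < th := lt_min ha0 (by norm_num)
  have hev := shi_log_pow (k + 1) th (c1 * c2 / (6 * C)) hth0 (by positivity)
  obtain ⟨xd, hd⟩ := eventually_atTop.1 (hev.and (eventually_ge_atTop (8 : ℝ)))
  refine ⟨c1 * c2 / 16, max (max xa xb) (max xc xd), by positivity, fun x hx => ?_⟩
  simp only [max_le_iff] at hx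
  obtain ⟨⟨hxa, hxb⟩, hxc, hxd⟩ := hx
  obtain ⟨hd1, hx8⟩ := hd x hxd
  have ha := ha x hxa
  have hb := hb x hxb
  have hE := (hE x hxc).1
  rw [Nat.cast_one, one_mul] at hE
  have hx0 : 0 < x := by linarith
  have hx1 : 1 ≤ x := by linarith
  have hl1 : 1 ≤ Real.log x := by
    rw [← Real.log_exp 1]
    exact Real.log_le_log (Real.exp_pos 1) (by linarith [Real.exp_one_lt_d9])
  have hl0 : 0 < Real.log x := by linarith
  have hl8 : Real.log (8 * x) ≤ 2 * Real.log x := by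
    rw [Real.log_mul (by norm_num) hx0.ne']
    have := Real.log_le_log (by norm_num) hx8
    linarith
  -- lower bound
  have h1 : ∀ s ∈ PSg a b x, TH 1 x * (1 / (s.totient : ℝ)) - Emax 1 x s ≤ THa 1 x s 1 := by
    intro s hs
    obtain ⟨a1, a2, a3⟩ := mem_PSg hx0.le hs
    have h2 := le_Emax 1 x s 1 a1.one_lt (Nat.coprime_one_left s)
    unfold EE at h2
    have h3 := (abs_le.1 h2).1
    have h4 : TH 1 x * (1 / (s.totient : ℝ)) = TH 1 x / s.totient := by ring
    linarith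
  have h2 := Finset.sum_le_sum h1
  rw [Finset.sum_sub_distrib, ← Finset.mul_sum] at h2
  have h3 : c1 * x * (c2 / Real.log x) ≤ TH 1 x * ∑ s ∈ PSg a b x, 1 / (s.totient : ℝ) := by
    gcongr
    exact le_trans (by positivity) hE
  -- upper bound
  have h4 := Finset.sum_le_sum (fun s hs => shg_tha (a := a) (b := b) (x := x) (by linarith) s hs)
  rw [← Finset.sum_mul] at h4
  have h5 : ∑ s ∈ PSg a b x, ((((GoodLg a b x).filter fun l => s ∣ l - 1).card : ℕ) : ℝ) ≤
      (GoodLg a b x).card * (2 * Real.log (8 * x)) := by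
    have h6 : ∑ s ∈ PSg a b x, ((GoodLg a b x).filter fun l => s ∣ l - 1).card =
        ∑ l ∈ GoodLg a b x, ((PSg a b x).filter fun s => s ∣ l - 1).card :=
      Finset.sum_card_bipartiteAbove_eq_sum_card_bipartiteBelow (fun s l => s ∣ l - 1)
    have h7 : ∑ s ∈ PSg a b x, ((((GoodLg a b x).filter fun l => s ∣ l - 1).card : ℕ) : ℝ) =
        ∑ l ∈ GoodLg a b x, ((((PSg a b x).filter fun s => s ∣ l - 1).card : ℕ) : ℝ) := by
      exact_mod_cast h6
    rw [h7]
    calc ∑ l ∈ GoodLg a b x, ((((PSg a b x).filter fun s => s ∣ l - 1).card : ℕ) : ℝ)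
        ≤ ∑ l ∈ GoodLg a b x, 2 * Real.log (8 * x) := by
          refine Finset.sum_le_sum fun l hl => ?_
          rw [GoodLg, mem_filter, mem_Icc] at hl
          have hl2 : 2 ≤ l := hl.1.1
          refine (shi_om (l - 1) (by omega) _ (fun s hs => ?_)).trans ?_
          · rw [mem_filter] at hs
            exact ⟨(mem_PSg hx0.le hs.1).1, hs.2⟩
          · refine mul_le_mul_of_nonneg_left ?_ (by norm_num)
            refine Real.log_le_log (by exact_mod_cast (by omega : 0 < l - 1)) ?_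
            calc ((l - 1 : ℕ) : ℝ) ≤ l := by exact_mod_cast Nat.sub_le l 1
              _ ≤ 8 * x := hl.2.2.2.1
      _ = _ := by rw [Finset.sum_const, nsmul_eq_mul]
  have hlog8 : 0 ≤ Real.log (8 * x) := Real.log_nonneg (by linarith)
  have h6 : ∑ s ∈ PSg a b x, THa 1 x s 1 ≤ (GoodLg a b x).card * (8 * (Real.log x) ^ 2) := by
    refine h4.trans ?_
    calc _ ≤ ((GoodLg a b x).card * (2 * Real.log (8 * x))) * Real.log (8 * x) := by gcongr
      _ ≤ ((GoodLg a b x).card * (2 * (2 * Real.log x))) * (2 * Real.log x) := by gcongr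
      _ = _ := by ring
  -- error
  have h7 : (C * (Real.log x) ^ k * (x ^ (1 - a) + x ^ (19 / 20 : ℝ)) + C * x ^ (4 / 5 : ℝ)) *
      Real.log x ≤ c1 * c2 / 2 * x := by
    have e1 : x ^ (1 - a) ≤ x ^ (1 - th) :=
      Real.rpow_le_rpow_of_exponent_le hx1 (by linarith [min_le_left a (1 / 20 : ℝ)])
    have e0 : x ^ (19 / 20 : ℝ) ≤ x ^ (1 - th) :=
      Real.rpow_le_rpow_of_exponent_le hx1 (by linarith [min_le_right a (1 / 20 : ℝ)])
    have e2 : x ^ (4 / 5 : ℝ) ≤ x ^ (1 - th) :=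
      Real.rpow_le_rpow_of_exponent_le hx1 (by linarith [min_le_right a (1 / 20 : ℝ)])
    have e3 : (1 : ℝ) ≤ (Real.log x) ^ k := one_le_pow₀ hl1
    calc (C * (Real.log x) ^ k * (x ^ (1 - a) + x ^ (19 / 20 : ℝ)) + C * x ^ (4 / 5 : ℝ)) *
        Real.log x ≤ (C * (Real.log x) ^ k * (x ^ (1 - th) + x ^ (1 - th)) +
          C * (Real.log x) ^ k * x ^ (1 - th)) * Real.log x := by
          gcongr
          calc C = C * 1 := (mul_one C).symm
            _ ≤ _ := by gcongr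
      _ = 3 * C * (Real.log x) ^ (k + 1) * x ^ (1 - th) := by ring
      _ ≤ 3 * C * (c1 * c2 / (6 * C) * x ^ th) * x ^ (1 - th) := by gcongr
      _ = c1 * c2 / 2 * (x ^ th * x ^ (1 - th)) := by
          field_simp; ring
      _ = _ := by
          rw [← Real.rpow_add hx0, add_sub_cancel, Real.rpow_one]
  have h8 : c1 * x * (c2 / Real.log x) * Real.log x = c1 * c2 * x := by
    field_simp
  have h9 : c1 * c2 / 2 * x ≤ (GoodLg a b x).card * (8 * (Real.log x) ^ 2) * Real.log x := by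
    have e1 : c1 * x * (c2 / Real.log x) - (C * (Real.log x) ^ k * (x ^ (1 - a) +
        x ^ (19 / 20 : ℝ)) + C * x ^ (4 / 5 : ℝ)) ≤ (GoodLg a b x).card * (8 * (Real.log x) ^ 2) := by
      linarith
    have e2 := mul_le_mul_of_nonneg_right e1 hl0.le
    rw [sub_mul, h8] at e2
    linarith
  rw [div_le_iff₀ (by positivity)]
  have h10 : ((GoodLg a b x).card : ℝ) * (8 * (Real.log x) ^ 2) * Real.log x =
      8 * ((GoodLg a b x).card * (Real.log x) ^ 3) := by ring
  rw [h10] at h9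
  linarith

/-- few `l` for which `l - 1` is divisible by a high power of a small prime -/
theorem shg_bad (a b y T : ℝ) (hy : 0 < y) (hT : 1 ≤ T) (p : ℕ) (hp : p.Prime) :
    (((GoodLg a b y).filter fun l => T < (p : ℝ) ^ (l - 1).factorization p).card : ℝ) ≤ 8 * y / T := by
  classical
  have hex : ∃ a : ℕ, T < (p : ℝ) ^ a := by
    have : (1 : ℝ) < p := by exact_mod_cast hp.one_lt
    exact pow_unbounded_of_one_lt T this
  have hsub : ((GoodLg a b y).filter fun l => T < (p : ℝ) ^ (l - 1).factorization p).card ≤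
      ((Ioc 0 ⌊8 * y⌋₊).filter fun n => p ^ (Nat.find hex) ∣ n).card := by
    refine Finset.card_le_card_of_injOn (fun l => l - 1) ?_ ?_
    · intro l hl
      rw [mem_coe, mem_filter, GoodLg, mem_filter, mem_Icc] at hl
      rw [mem_coe, mem_filter, mem_Ioc]
      have e1 := hl.1.1.1
      have e2 := hl.1.1.2
      refine ⟨⟨show 0 < l - 1 by omega, show l - 1 ≤ ⌊8 * y⌋₊ by omega⟩, ?_⟩
      have h1 : Nat.find hex ≤ (l - 1).factorization p := Nat.find_min' hex hl.2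
      exact (pow_dvd_pow p h1).trans (Nat.ordProj_dvd (l - 1) p)
    · intro l hl l' hl' h
      rw [mem_coe, mem_filter, GoodLg, mem_filter, mem_Icc] at hl hl'
      have h1 := hl.1.1.1
      have h2 := hl'.1.1.1
      simp only at h
      omega
  rw [Nat.Ioc_filter_dvd_card_eq_div] at hsub
  calc (((GoodLg a b y).filter fun l => T < (p : ℝ) ^ (l - 1).factorization p).card : ℝ)
      ≤ ((⌊8 * y⌋₊ / p ^ (Nat.find hex) : ℕ) : ℝ) := by exact_mod_cast hsub
    _ ≤ (⌊8 * y⌋₊ : ℝ) / ((p ^ (Nat.find hex) : ℕ) : ℝ) := Nat.cast_div_le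
    _ ≤ (8 * y) / T := by
        have h1 := Nat.floor_le (show 0 ≤ 8 * y by linarith)
        have h2 := Nat.find_spec hex
        push_cast
        gcongr

end Pool.Agent.H47.ABCR

namespace Pool.Agent.H98.ABCR
open Finset Filter Pool.Agent.H20.ABCR Pool.Agent.H47.ABCR

theorem shg_thm : S_SHG := by
  classical
  intro a b κ ha hab hb hκ k0
  obtain ⟨c, x0, hc, hcount⟩ := shg_count ha hab hb shi_LARGE MTA.CHAR MTA.THPSI MTA.CHE
  have hk : (0 : ℝ) < κ / (2 * ((k0 : ℝ) + 1)) := by positivity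
  have ev1 := shi_log_pow 3 (κ / (2 * ((k0 : ℝ) + 1))) (c / (16 * ((k0 : ℝ) + 1))) hk
    (by positivity)
  have ev2 := shi_log_pow 3 κ (c / 16) hκ (by positivity)
  have ev3 := shi_rpow_ev (κ / 2) (by linarith) 8
  obtain ⟨y0, hy0⟩ := eventually_atTop.1 ((ev1.and ev2).and (ev3.and
    ((eventually_ge_atTop x0).and (eventually_ge_atTop (3 : ℝ)))))
  refine ⟨y0, fun y hy => ?_⟩
  obtain ⟨⟨h1, h2⟩, h3, h4, h5⟩ := hy0 y hy
  have hcount := hcount y h4
  have hy1 : 1 ≤ y := by linarith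
  have hyp : 0 < y := by linarith
  have hl1 : 0 < Real.log y := Real.log_pos (by linarith)
  set T := y ^ (κ / (2 * ((k0 : ℝ) + 1))) with hT
  have hT1 : 1 ≤ T := Real.one_le_rpow hy1 hk.le
  have hTk : T ^ k0 ≤ y ^ (κ / 2) := by
    calc T ^ k0 ≤ T ^ (k0 + 1) := pow_le_pow_right₀ hT1 (Nat.le_succ _)
      _ = y ^ (κ / 2) := by
          rw [hT, ← Real.rpow_natCast, ← Real.rpow_mul hyp.le]
          congr 1
          push_cast
          field_simp
  -- remove the bad ones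
  set G := (GoodLg a b y).filter fun l => ∀ p < k0, p.Prime → ((p : ℝ) ^ (l - 1).factorization p) ≤ T
    with hG
  have hGc : c / 2 * y / (Real.log y) ^ 3 ≤ (G.card : ℝ) := by
    have e1 : GoodLg a b y ⊆ G ∪ (range k0).biUnion fun p => if p.Prime then
        (GoodLg a b y).filter (fun l => T < (p : ℝ) ^ (l - 1).factorization p) else ∅ := by
      intro l hl
      rw [mem_union]
      by_cases hlG : l ∈ G
      · exact Or.inl hlG
      · right
        rw [hG, mem_filter, not_and] at hlG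
        have := hlG hl
        push Not at this
        obtain ⟨p, hp, hpp, hlt⟩ := this
        rw [mem_biUnion]
        refine ⟨p, mem_range.2 hp, ?_⟩
        rw [if_pos hpp, mem_filter]
        exact ⟨hl, hlt⟩
    have e2 := (card_le_card e1).trans ((card_union_le _ _).trans
      (Nat.add_le_add_left card_biUnion_le _))
    have e3 : ((GoodLg a b y).card : ℝ) ≤ G.card + ∑ p ∈ range k0, ((if p.Prime then
        (GoodLg a b y).filter (fun l => T < (p : ℝ) ^ (l - 1).factorization p) else ∅ :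
          Finset ℕ).card : ℝ) := by exact_mod_cast e2
    have e4 : ∑ p ∈ range k0, ((if p.Prime then
        (GoodLg a b y).filter (fun l => T < (p : ℝ) ^ (l - 1).factorization p) else ∅ :
          Finset ℕ).card : ℝ) ≤ k0 * (8 * y / T) := by
      calc _ ≤ ∑ _p ∈ range k0, 8 * y / T := by
            refine Finset.sum_le_sum fun p _ => ?_
            split_ifs with hp
            · exact shg_bad a b y T hyp hT1 p hp
            · simp only [card_empty, Nat.cast_zero]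
              positivity
        _ = _ := by rw [Finset.sum_const, nsmul_eq_mul, card_range]
    have e5 : (k0 : ℝ) * (8 * y / T) ≤ c / 2 * y / (Real.log y) ^ 3 := by
      rw [mul_div_assoc', div_le_div_iff₀ (by positivity) (by positivity)]
      calc (k0 : ℝ) * (8 * y) * Real.log y ^ 3
          ≤ ((k0 : ℝ) + 1) * (8 * y) * (c / (16 * ((k0 : ℝ) + 1)) * T) := by
            gcongr
            linarith
        _ = _ := by field_simp; ring
    have e6 : c / 2 * y / (Real.log y) ^ 3 + c / 2 * y / (Real.log y) ^ 3 =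
        c * y / (Real.log y) ^ 3 := by ring
    linarith
  -- the prime `s`
  have hs : ∀ l ∈ G, ∃ s : ℕ, s.Prime ∧ y ^ a < s ∧ (s : ℝ) ≤ y ^ b ∧
      s ∣ l - 1 := by
    intro l hl
    rw [hG, mem_filter, GoodLg, mem_filter] at hl
    exact hl.1.2.2.2.2
  choose! s hs using hs
  have hl : ∀ l ∈ G, l.Prime ∧ y / 8 ≤ (l : ℝ) - 1 ∧ (l : ℝ) ≤ 8 * y ∧ 2 ≤ l ∧
      ∀ p < k0, p.Prime → ((p : ℝ) ^ (l - 1).factorization p) ≤ T := by
    intro l hl
    rw [hG, mem_filter, GoodLg, mem_filter, mem_Icc] at hl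
    exact ⟨hl.1.2.1, hl.1.2.2.1, hl.1.2.2.2.1, hl.1.1.1, hl.2⟩
  have hcast : ∀ l ∈ G, ((l - 1 : ℕ) : ℝ) = (l : ℝ) - 1 := by
    intro l hlG
    have := (hl l hlG).2.2.2.1
    rw [Nat.cast_sub (by omega)]
    simp
  have hn : ∀ l ∈ G, s l * ((l - 1) / s l) = l - 1 := fun l hlG =>
    Nat.mul_div_cancel' (hs l hlG).2.2.2
  have hn0 : ∀ l ∈ G, (l - 1) / s l ≠ 0 := by
    intro l hlG h0
    have h6 := hn l hlG
    rw [h0, mul_zero] at h6
    have := (hl l hlG).2.2.2.1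
    omega
  have hnr : ∀ l ∈ G, (s l : ℝ) * (((l - 1) / s l : ℕ) : ℝ) = (l : ℝ) - 1 := by
    intro l hlG
    rw [← hcast l hlG]
    exact_mod_cast hn l hlG
  have hup : ∀ l ∈ G, (rough k0 ((l - 1) / s l) : ℝ) ≤ 8 * y ^ (1 - a) := by
    intro l hlG
    have e1 : rough k0 ((l - 1) / s l) ≤ (l - 1) / s l :=
      Nat.le_of_dvd (Nat.pos_of_ne_zero (hn0 l hlG))
        ⟨smooth k0 ((l - 1) / s l), by rw [mul_comm]; exact (smooth_mul_rough k0 _ (hn0 l hlG)).symm⟩
    have e2 : (rough k0 ((l - 1) / s l) : ℝ) ≤ (((l - 1) / s l : ℕ) : ℝ) := by exact_mod_cast e1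
    refine e2.trans ?_
    have e3 := hnr l hlG
    obtain ⟨a1, a2, a3, a4⟩ := hs l hlG
    have e4 := (hl l hlG).2.2.1
    have e5 : y ^ a * (((l - 1) / s l : ℕ) : ℝ) ≤ 8 * y := by
      calc y ^ a * (((l - 1) / s l : ℕ) : ℝ) ≤ s l * (((l - 1) / s l : ℕ) : ℝ) := by
            gcongr
        _ ≤ 8 * y := by rw [e3]; linarith
    have e6 : 8 * y = y ^ a * (8 * y ^ (1 - a)) := by
      have : y ^ a * y ^ (1 - a) = y := by
        rw [← Real.rpow_add hyp, add_sub_cancel, Real.rpow_one]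
      linear_combination (-8 : ℝ) * this
    rw [e6] at e5
    exact le_of_mul_le_mul_left e5 (by positivity)
  have hlo : ∀ l ∈ G, y ^ (1 - b - κ) ≤ (rough k0 ((l - 1) / s l) : ℝ) := by
    intro l hlG
    have e1 := smooth_mul_rough k0 _ (hn0 l hlG)
    have e2 := smooth_le k0 ((l - 1) / s l) (l - 1) (by have := (hl l hlG).2.2.2.1; omega)
      (Nat.div_dvd_of_dvd (hs l hlG).2.2.2) T hT1 (hl l hlG).2.2.2.2
    have e3 : (smooth k0 ((l - 1) / s l) : ℝ) * (rough k0 ((l - 1) / s l) : ℝ) =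
        (((l - 1) / s l : ℕ) : ℝ) := by exact_mod_cast e1
    obtain ⟨a1, a2, a3, a4⟩ := hs l hlG
    have e4 : y / 8 ≤ y ^ b * (y ^ (κ / 2) * (rough k0 ((l - 1) / s l) : ℝ)) := by
      calc y / 8 ≤ (l : ℝ) - 1 := (hl l hlG).2.1
        _ = s l * ((smooth k0 ((l - 1) / s l) : ℝ) * (rough k0 ((l - 1) / s l) : ℝ)) := by
            rw [e3]; exact (hnr l hlG).symm
        _ ≤ _ := by
            gcongr
            exact e2.trans hTk
    have e5 : y = y ^ b * (y ^ (κ / 2) * (y ^ (κ / 2) * y ^ (1 - b - κ))) := by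
      rw [← Real.rpow_add hyp, ← Real.rpow_add hyp, ← Real.rpow_add hyp]
      have : b + (κ / 2 + (κ / 2 + (1 - b - κ))) = 1 := by ring
      rw [this, Real.rpow_one]
    have e6 : y ^ b * (y ^ (κ / 2) * (8 * y ^ (1 - b - κ))) ≤
        y ^ b * (y ^ (κ / 2) * (8 * (rough k0 ((l - 1) / s l) : ℝ))) := by
      calc _ ≤ y ^ b * (y ^ (κ / 2) * (y ^ (κ / 2) * y ^ (1 - b - κ))) := by
            gcongr
        _ = y := e5.symm
        _ ≤ 8 * (y ^ b * (y ^ (κ / 2) * (rough k0 ((l - 1) / s l) : ℝ))) := by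
            linarith
        _ = _ := by ring
    have e7 := le_of_mul_le_mul_left (le_of_mul_le_mul_left e6 (by positivity)) (by positivity)
    linarith
  -- pigeonhole
  have hpig : ∃ e ∈ Icc 1 ⌊8 * y ^ (1 - a)⌋₊, y ^ (a - κ) ≤
      ((G.filter fun l => rough k0 ((l - 1) / s l) = e).card : ℝ) := by
    refine Finset.exists_le_card_fiber_of_nsmul_le_card_of_maps_to (fun l hlG => ?_) ?_ ?_
    · rw [mem_Icc]
      refine ⟨?_, Nat.le_floor (hup l hlG)⟩
      have e1 := hlo l hlG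
      have e2 : (0 : ℝ) < (rough k0 ((l - 1) / s l) : ℝ) := lt_of_lt_of_le (by positivity) e1
      exact_mod_cast e2
    · rw [nonempty_Icc]
      refine Nat.le_floor ?_
      have := Real.one_le_rpow hy1 (show (0 : ℝ) ≤ 1 - a by linarith)
      push_cast
      linarith
    · rw [nsmul_eq_mul, Nat.card_Icc, Nat.add_sub_cancel]
      have e1 := Nat.floor_le (show 0 ≤ 8 * y ^ (1 - a) by positivity)
      refine le_trans ?_ hGc
      rw [le_div_iff₀ (by positivity)]
      calc (⌊8 * y ^ (1 - a)⌋₊ : ℝ) * y ^ (a - κ) * Real.log y ^ 3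
          ≤ (8 * y ^ (1 - a)) * y ^ (a - κ) * (c / 16 * y ^ κ) := by gcongr
        _ = c / 2 * (y ^ (1 - a) * (y ^ (a - κ) * y ^ κ)) := by ring
        _ = c / 2 * y := by
            rw [← Real.rpow_add hyp, ← Real.rpow_add hyp]
            have : 1 - a + (a - κ + κ) = 1 := by ring
            rw [this, Real.rpow_one]
  obtain ⟨e, -, he⟩ := hpig
  have hne : (G.filter fun l => rough k0 ((l - 1) / s l) = e).Nonempty := by
    rw [← Finset.card_pos]
    have : (0 : ℝ) < ((G.filter fun l => rough k0 ((l - 1) / s l) = e).card : ℝ) :=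
      lt_of_lt_of_le (by positivity) he
    exact_mod_cast this
  obtain ⟨l0, hl0⟩ := hne
  rw [mem_filter] at hl0
  refine ⟨e, fun q hq hqe => ?_, ?_, ?_, G.filter fun l => rough k0 ((l - 1) / s l) = e, he,
    fun l hlL => ?_⟩
  · rw [← hl0.2] at hqe
    exact rough_prime _ _ _ hq hqe
  · rw [← hl0.2]; exact hlo l0 hl0.1
  · rw [← hl0.2]
    refine (hup l0 hl0.1).trans ?_
    have e1 : y ^ (1 - a + κ) = y ^ κ * y ^ (1 - a) := by
      rw [← Real.rpow_add hyp]
      congr 1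
      ring
    rw [e1]
    refine mul_le_mul_of_nonneg_right (h3.trans ?_) (by positivity)
    exact Real.rpow_le_rpow_of_exponent_le hy1 (by linarith)
  · rw [mem_filter] at hlL
    obtain ⟨b1, b2, b3, b4, b5⟩ := hl l hlL.1
    refine ⟨b1, ?_, by linarith, b3⟩
    rw [← hlL.2]
    refine Dvd.dvd.trans ⟨smooth k0 ((l - 1) / s l), ?_⟩ (Nat.div_dvd_of_dvd (hs l hlL.1).2.2.2)
    rw [mul_comm]
    exact (smooth_mul_rough k0 _ (hn0 l hlL.1)).symm

end Pool.Agent.H98.ABCR
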